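import Pool.Agent.Lib_helper19.NAS.Defs

/-!
# Coinduced modules (MP_ef4bac_al, project NAS)
-/

set_option autoImplicit false

namespace Pool.Agent.NAS

open Module

universe u

variable {K A : Type u} [Field K] [Ring A] [Algebra K A] {𝒜 : ℕ → Submodule K A}

theorem hA_nat (n : ℕ) : hA 𝒜 (n : ℤ) = 𝒜 n := by
  unfold hA
  rw [if_pos (Int.natCast_nonneg n), Int.toNat_natCast]

theorem hA_neg {n : ℤ} (h : n < 0) : hA 𝒜 n = ⊥ := by
  unfold hA
  rw [if_neg (not_le.2 h)]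

theorem GM.pr_dg {M : GM 𝒜} {n : ℤ} {x : M.X} (hx : x ∈ M.dg n) : M.pr n x = x := GM.mem_dg.1 hx

theorem GM.pr_dg_ne {M : GM 𝒜} {n m : ℤ} {x : M.X} (hx : x ∈ M.dg m) (h : n ≠ m) :
    M.pr n x = 0 := by
  rw [← GM.pr_dg hx]
  exact M.pr_ne _ _ _ h

theorem GM.pr_notin {M : GM 𝒜} {x : M.X} {s : Finset ℤ} (hs : ∑ n ∈ s, M.pr n x = x) {n : ℤ}
    (hn : n ∉ s) : M.pr n x = 0 := by
  rw [← hs, map_sum]
  refine Finset.sum_eq_zero fun m hm => M.pr_ne _ _ _ ?_
  rintro rfl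
  exact hn hm

theorem GM.pr_sum_sup {M : GM 𝒜} {x : M.X} {s t : Finset ℤ} (hs : ∑ n ∈ s, M.pr n x = x)
    (hst : s ⊆ t) : ∑ n ∈ t, M.pr n x = x := by
  rw [← Finset.sum_subset hst fun n _ hn => GM.pr_notin hs hn]
  exact hs

/-- Induction on homogeneous elements. -/
theorem GM.induct {M : GM 𝒜} {P : M.X → Prop} (x : M.X) (h0 : P 0)
    (hadd : ∀ x y, P x → P y → P (x + y)) (hh : ∀ n, ∀ x ∈ M.dg n, P x) : P x := by
  classical
  obtain ⟨s, hs⟩ := M.pr_sum x
  rw [← hs]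
  clear hs
  induction s using Finset.induction_on with
  | empty => rw [Finset.sum_empty]; exact h0
  | insert a s ha ih =>
    rw [Finset.sum_insert ha]
    exact hadd _ _ (hh a _ (M.pr_mem a x)) ih

theorem GM.smul_mem_dg {M : GM 𝒜} {k n : ℤ} {a : A} {x : M.X} (ha : a ∈ hA 𝒜 k)
    (hx : x ∈ M.dg n) : a • x ∈ M.dg (k + n) := by
  rw [GM.mem_dg, M.pr_smul k a ha, GM.pr_dg hx]

theorem Hm_dg {M N : GM 𝒜} {a : ℤ} {f : M.X →ₗ[A] N.X} (hf : f ∈ Hm M N a) {n : ℤ} {x : M.X}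
    (hx : x ∈ M.dg n) : f x ∈ N.dg (n + a) := by
  rw [GM.mem_dg, ← hf, GM.pr_dg hx]

theorem mem_Hm_of_dg {M N : GM 𝒜} {a : ℤ} {f : M.X →ₗ[A] N.X}
    (h : ∀ n, ∀ x ∈ M.dg n, f x ∈ N.dg (n + a)) : f ∈ Hm M N a := by
  intro n x
  induction x using GM.induct with
  | h0 => simp
  | hadd x y hx hy => rw [map_add, map_add, hx, hy, map_add, map_add]
  | hh m x hx =>
    by_cases hnm : n = m
    · subst hnm
      rw [GM.pr_dg hx, GM.pr_dg (h n x hx)]
    · rw [GM.pr_dg_ne hx hnm, map_zero, GM.pr_dg_ne (h m x hx) (fun hh => hnm (by omega))]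

theorem Hm_comp {M N P : GM 𝒜} {a b : ℤ} {f : M.X →ₗ[A] N.X} {g : N.X →ₗ[A] P.X}
    (hf : f ∈ Hm M N a) (hg : g ∈ Hm N P b) : g ∘ₗ f ∈ Hm M P (a + b) := by
  intro n x
  rw [LinearMap.comp_apply, LinearMap.comp_apply, hf, hg, add_assoc]

theorem Hm_comp0 {M N P : GM 𝒜} {b : ℤ} {f : M.X →ₗ[A] N.X} {g : N.X →ₗ[A] P.X}
    (hf : f ∈ Hm M N 0) (hg : g ∈ Hm N P b) : g ∘ₗ f ∈ Hm M P b := by
  have := Hm_comp hf hg
  rwa [zero_add] at this

theorem Hm_0comp {M N P : GM 𝒜} {a : ℤ} {f : M.X →ₗ[A] N.X} {g : N.X →ₗ[A] P.X}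
    (hf : f ∈ Hm M N a) (hg : g ∈ Hm N P 0) : g ∘ₗ f ∈ Hm M P a := by
  have := Hm_comp hf hg
  rwa [add_zero] at this

variable [GradedAlgebra 𝒜]

theorem prA_mem (n : ℤ) (x : A) : prA 𝒜 n x ∈ hA 𝒜 n := by
  rcases le_or_gt 0 n with h | h
  · lift n to ℕ using h
    rw [prA_nat, hA_nat]
    exact SetLike.coe_mem _
  · rw [prA_neg 𝒜 h]
    exact zero_mem _

theorem prA_of_mem {n : ℤ} {x : A} (hx : x ∈ hA 𝒜 n) : prA 𝒜 n x = x := by
  rcases le_or_gt 0 n with h | h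
  · lift n to ℕ using h
    rw [prA_nat]
    rw [hA_nat] at hx
    exact DirectSum.decompose_of_mem_same 𝒜 hx
  · rw [hA_neg h] at hx
    rw [(Submodule.mem_bot K).1 hx, map_zero]

theorem prA_dg {n : ℤ} {x : A} : x ∈ (AsA 𝒜).dg n ↔ x ∈ hA 𝒜 n := by
  constructor
  · intro h
    have h1 : prA 𝒜 n x = x := GM.pr_dg h
    rw [← h1]
    exact prA_mem n x
  · intro h
    exact GM.mem_dg.2 (prA_of_mem h)

theorem hA_mul {m n : ℤ} {x y : A} (hx : x ∈ hA 𝒜 m) (hy : y ∈ hA 𝒜 n) :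
    x * y ∈ hA 𝒜 (m + n) := by
  have h1 : y ∈ (AsA 𝒜).dg n := prA_dg.2 hy
  have h2 : x • y ∈ (AsA 𝒜).dg (m + n) := GM.smul_mem_dg hx h1
  exact prA_dg.1 h2

/-- The homogeneous component of degree `n` of a linear map. -/
noncomputable def cpr (N : GM 𝒜) (n : ℤ) : (A →ₗ[K] N.X) →ₗ[K] (A →ₗ[K] N.X) where
  toFun f := (DirectSum.toModule K ℕ N.X
    (fun k => (N.pr (n + k)) ∘ₗ f ∘ₗ (𝒜 k).subtype)) ∘ₗ
      (DirectSum.decomposeLinearEquiv 𝒜).toLinearMap
  map_add' f g := by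
    refine LinearMap.ext fun x => ?_
    simp only [LinearMap.comp_apply, LinearMap.add_apply]
    induction (DirectSum.decomposeLinearEquiv 𝒜).toLinearMap x using DirectSum.induction_on with
    | zero => simp
    | of i y => 
      simp only [← DirectSum.lof_eq_of K, DirectSum.toModule_lof, LinearMap.comp_apply,
        LinearMap.add_apply, map_add]
    | add y z hy hz => 
      simp only [map_add, hy, hz]
      abel
  map_smul' c f := by
    refine LinearMap.ext fun x => ?_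
    simp only [LinearMap.comp_apply, LinearMap.smul_apply, RingHom.id_apply]
    induction (DirectSum.decomposeLinearEquiv 𝒜).toLinearMap x using DirectSum.induction_on with
    | zero => simp
    | of i y => 
      simp only [← DirectSum.lof_eq_of K, DirectSum.toModule_lof, LinearMap.comp_apply,
        LinearMap.smul_apply, map_smul]
    | add y z hy hz => 
      simp only [map_add, hy, hz, smul_add]

theorem cpr_apply (N : GM 𝒜) (n k : ℤ) (f : A →ₗ[K] N.X) {x : A} (hx : x ∈ hA 𝒜 k) :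
    cpr N n f x = N.pr (n + k) (f x) := by
  rcases le_or_gt 0 k with h | h
  · lift k to ℕ using h
    rw [hA_nat] at hx
    have h1 : (DirectSum.decomposeLinearEquiv 𝒜) x = DirectSum.lof K ℕ (fun i => 𝒜 i) k ⟨x, hx⟩ := by
      rw [DirectSum.decomposeLinearEquiv_apply, DirectSum.lof_eq_of]
      exact DirectSum.decompose_of_mem 𝒜 hx
    show (DirectSum.toModule K ℕ N.X _) ((DirectSum.decomposeLinearEquiv 𝒜) x) = _
    rw [h1, DirectSum.toModule_lof]
    rfl
  · rw [hA_neg h] at hx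
    rw [(Submodule.mem_bot K).1 hx, map_zero, map_zero, map_zero]

/-- Linear maps agree if they agree on homogeneous elements. -/
theorem lin_ext {N : Type*} [AddCommGroup N] [Module K N] {f g : A →ₗ[K] N}
    (h : ∀ k, ∀ x ∈ hA 𝒜 k, f x = g x) : f = g := by
  refine LinearMap.ext fun x => ?_
  refine GM.induct (M := AsA 𝒜) (P := fun x => f x = g x) x ?_ ?_ ?_
  · exact (map_zero f).trans (map_zero g).symm
  · intro x y hx hy
    exact (map_add f x y).trans ((congrArg₂ (· + ·) hx hy).trans (map_add g x y).symm)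
  · intro n x hx
    exact h n x (prA_dg.1 hx)

theorem cpr_self (N : GM 𝒜) (n : ℤ) (f : A →ₗ[K] N.X) : cpr N n (cpr N n f) = cpr N n f := by
  refine lin_ext (𝒜 := 𝒜) fun k x hx => ?_
  rw [cpr_apply N n k _ hx, cpr_apply N n k _ hx, N.pr_self]

theorem cpr_ne (N : GM 𝒜) (n m : ℤ) (f : A →ₗ[K] N.X) (h : n ≠ m) :
    cpr N n (cpr N m f) = 0 := by
  refine lin_ext (𝒜 := 𝒜) fun k x hx => ?_
  rw [cpr_apply N n k _ hx, cpr_apply N m k _ hx, N.pr_ne _ _ _ (fun hh => h (by omega))]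
  rfl

/-- Linear maps which are finite sums of homogeneous maps. -/
def coS (N : GM 𝒜) : Submodule K (A →ₗ[K] N.X) where
  carrier := {f | ∃ s : Finset ℤ, ∑ n ∈ s, cpr N n f = f}
  zero_mem' := ⟨∅, by simp⟩
  add_mem' {f g} hf hg := by
    classical
    obtain ⟨s, hs⟩ := hf
    obtain ⟨t, ht⟩ := hg
    have key : ∀ (h : A →ₗ[K] N.X) (s t : Finset ℤ), ∑ n ∈ s, cpr N n h = h → s ⊆ t →
        ∑ n ∈ t, cpr N n h = h := by
      intro h s t hs hst
      rw [← Finset.sum_subset hst]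
      · exact hs
      · intro n _ hn
        rw [← hs, map_sum]
        refine Finset.sum_eq_zero fun m hm => cpr_ne _ _ _ _ ?_
        rintro rfl
        exact hn hm
    refine ⟨s ∪ t, ?_⟩
    simp only [map_add, Finset.sum_add_distrib]
    rw [key f s _ hs Finset.subset_union_left, key g t _ ht Finset.subset_union_right]
  smul_mem' c f hf := by
    obtain ⟨s, hs⟩ := hf
    refine ⟨s, ?_⟩
    simp only [map_smul, ← Finset.smul_sum]
    rw [hs]

/-- The underlying type of the coinduced module. -/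
def CoX (N : GM 𝒜) : Type u := ↥(coS N)

noncomputable instance (N : GM 𝒜) : AddCommGroup (CoX N) :=
  inferInstanceAs (AddCommGroup ↥(coS N))

noncomputable instance (N : GM 𝒜) : Module K (CoX N) := inferInstanceAs (Module K ↥(coS N))

/-- The linear map of an element of the coinduced module. -/
def CoX.fn {N : GM 𝒜} (f : CoX N) : A →ₗ[K] N.X := Subtype.val f

theorem CoX.ext {N : GM 𝒜} {f g : CoX N} (h : f.fn = g.fn) : f = g := Subtype.ext h

theorem CoX.mem {N : GM 𝒜} (f : CoX N) : ∃ s : Finset ℤ, ∑ n ∈ s, cpr N n f.fn = f.fn := f.2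

theorem hg_mem (N : GM 𝒜) {n : ℤ} {f : A →ₗ[K] N.X} (h : cpr N n f = f) : f ∈ coS N :=
  ⟨{n}, by rw [Finset.sum_singleton, h]⟩

theorem smul_hg (N : GM 𝒜) {n k : ℤ} {f : A →ₗ[K] N.X} (h : cpr N n f = f) {a : A}
    (ha : a ∈ hA 𝒜 k) : cpr N (k + n) (f ∘ₗ LinearMap.mulRight K a) = f ∘ₗ LinearMap.mulRight K a := by
  refine lin_ext (𝒜 := 𝒜) fun j x hx => ?_
  rw [cpr_apply N _ j _ hx]
  simp only [LinearMap.comp_apply, LinearMap.mulRight_apply]
  have h1 : x * a ∈ hA 𝒜 (j + k) := hA_mul hx ha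
  have h2 := cpr_apply N n (j + k) f h1
  rw [h] at h2
  have h3 : k + n + j = n + (j + k) := by ring
  rw [h3]
  exact h2.symm

theorem smul_coS (N : GM 𝒜) {f : A →ₗ[K] N.X} (hf : f ∈ coS N) (a : A) :
    f ∘ₗ LinearMap.mulRight K a ∈ coS N := by
  classical
  obtain ⟨s, hs⟩ := hf
  obtain ⟨t, ht⟩ := (AsA 𝒜).pr_sum a
  have h1 : f ∘ₗ LinearMap.mulRight K a
      = ∑ n ∈ s, ∑ k ∈ t, (cpr N n f) ∘ₗ LinearMap.mulRight K (prA 𝒜 k a) := by
    refine LinearMap.ext fun x => ?_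
    simp only [LinearMap.sum_apply, LinearMap.comp_apply, LinearMap.mulRight_apply]
    have h2 : ∀ n ∈ s, ∑ k ∈ t, cpr N n f (x * prA 𝒜 k a) = cpr N n f (x * a) := by
      intro n _
      rw [← map_sum, ← Finset.mul_sum]
      congr 2
    rw [Finset.sum_congr rfl h2, ← LinearMap.sum_apply, hs]
  rw [h1]
  refine Submodule.sum_mem _ fun n _ => Submodule.sum_mem _ fun k _ => ?_
  exact hg_mem N (smul_hg N (cpr_self N n f) (prA_mem k a))

noncomputable instance (N : GM 𝒜) : SMul A (CoX N) :=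
  ⟨fun a f => ⟨f.fn ∘ₗ LinearMap.mulRight K a, smul_coS N f.2 a⟩⟩

theorem CoX.smul_fn {N : GM 𝒜} (a : A) (f : CoX N) (x : A) : (a • f).fn x = f.fn (x * a) := rfl

theorem CoX.add_fn {N : GM 𝒜} (f g : CoX N) : (f + g).fn = f.fn + g.fn := rfl

theorem CoX.zero_fn {N : GM 𝒜} : (0 : CoX N).fn = 0 := rfl

theorem CoX.ksmul_fn {N : GM 𝒜} (c : K) (f : CoX N) : (c • f).fn = c • f.fn := rfl

noncomputable instance (N : GM 𝒜) : Module A (CoX N) where
  one_smul f := CoX.ext (LinearMap.ext fun x => by rw [CoX.smul_fn, mul_one])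
  mul_smul a b f := CoX.ext (LinearMap.ext fun x => by
    rw [CoX.smul_fn, CoX.smul_fn, CoX.smul_fn, mul_assoc])
  smul_zero a := CoX.ext (LinearMap.ext fun x => rfl)
  smul_add a f g := CoX.ext (LinearMap.ext fun x => rfl)
  add_smul a b f := CoX.ext (LinearMap.ext fun x => by
    rw [CoX.add_fn, LinearMap.add_apply, CoX.smul_fn, CoX.smul_fn, CoX.smul_fn, mul_add, map_add])
  zero_smul f := CoX.ext (LinearMap.ext fun x => by
    rw [CoX.smul_fn, mul_zero, map_zero, CoX.zero_fn]; rfl)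

instance (N : GM 𝒜) : IsScalarTower K A (CoX N) where
  smul_assoc c a f := CoX.ext (LinearMap.ext fun x => by
    rw [CoX.smul_fn, CoX.ksmul_fn, LinearMap.smul_apply, CoX.smul_fn, mul_smul_comm, map_smul])

/-- The projections of the coinduced module. -/
noncomputable def coPr (N : GM 𝒜) (n : ℤ) : CoX N →ₗ[K] CoX N where
  toFun f := ⟨cpr N n f.fn, hg_mem N (cpr_self N n f.fn)⟩
  map_add' f g := CoX.ext (map_add (cpr N n) f.fn g.fn)
  map_smul' c f := CoX.ext (map_smul (cpr N n) c f.fn)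

theorem coPr_fn (N : GM 𝒜) (n : ℤ) (f : CoX N) : (coPr N n f).fn = cpr N n f.fn := rfl

/-- The coinduced module. -/
noncomputable def coind (N : GM 𝒜) : GM 𝒜 where
  X := CoX N
  pr := coPr N
  pr_self n f := CoX.ext (cpr_self N n f.fn)
  pr_ne n m f h := CoX.ext (cpr_ne N n m f.fn h)
  pr_sum f := by
    obtain ⟨s, hs⟩ := f.mem
    refine ⟨s, CoX.ext ?_⟩
    have h1 : ∀ t : Finset ℤ, (∑ n ∈ t, coPr N n f).fn = ∑ n ∈ t, cpr N n f.fn := by
      intro t
      classical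
      induction t using Finset.induction_on with
      | empty => rw [Finset.sum_empty, Finset.sum_empty, CoX.zero_fn]
      | insert a t ha ih => rw [Finset.sum_insert ha, Finset.sum_insert ha, CoX.add_fn, ih, coPr_fn]
    rw [h1, hs]
  pr_smul k a ha n f := CoX.ext (by
    refine lin_ext (𝒜 := 𝒜) fun j x hx => ?_
    rw [coPr_fn, cpr_apply N _ j _ hx, CoX.smul_fn, CoX.smul_fn, coPr_fn,
      cpr_apply N n (j + k) _ (hA_mul hx ha)]
    congr 2
    ring)

theorem one_mem_hA : (1 : A) ∈ hA 𝒜 0 := by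
  have h : hA 𝒜 (0 : ℤ) = 𝒜 0 := hA_nat 0
  rw [h]
  exact SetLike.GradedOne.one_mem

/-- The map to the coinduced module given by a graded linear map. -/
noncomputable def mkCo (M N : GM 𝒜) (a : ℤ) (ψ : M.X →ₗ[K] N.X)
    (h : ∀ n x, ψ (M.pr n x) = N.pr (n + a) (ψ x)) : M.X →ₗ[A] (coind N).X where
  toFun y := (⟨ψ ∘ₗ (LinearMap.toSpanSingleton A M.X y).restrictScalars K, by
    have hh : ∀ n, ∀ y ∈ M.dg n, cpr N (n + a)
        (ψ ∘ₗ (LinearMap.toSpanSingleton A M.X y).restrictScalars K)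
        = ψ ∘ₗ (LinearMap.toSpanSingleton A M.X y).restrictScalars K := by
      intro n y hy
      refine lin_ext (𝒜 := 𝒜) fun k x hx => ?_
      rw [cpr_apply N _ k _ hx]
      simp only [LinearMap.comp_apply, LinearMap.restrictScalars_apply,
        LinearMap.toSpanSingleton_apply]
      have h1 := h (k + n) (x • y)
      rw [GM.pr_dg (GM.smul_mem_dg hx hy)] at h1
      have h2 : n + a + k = k + n + a := by ring
      rw [h2]
      exact h1.symm
    refine GM.induct (M := M) (P := fun y => ψ ∘ₗ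
      (LinearMap.toSpanSingleton A M.X y).restrictScalars K ∈ coS N) y ?_ ?_ ?_
    · have : ψ ∘ₗ (LinearMap.toSpanSingleton A M.X 0).restrictScalars K = 0 := by
        refine LinearMap.ext fun x => ?_
        simp
      rw [this]
      exact zero_mem _
    · intro y z hy hz
      have : ψ ∘ₗ (LinearMap.toSpanSingleton A M.X (y + z)).restrictScalars K
          = ψ ∘ₗ (LinearMap.toSpanSingleton A M.X y).restrictScalars K
            + ψ ∘ₗ (LinearMap.toSpanSingleton A M.X z).restrictScalars K := by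
        refine LinearMap.ext fun x => ?_
        simp
      rw [this]
      exact add_mem hy hz
    · intro n y hy
      exact hg_mem N (hh n y hy)⟩ : CoX N)
  map_add' y z := CoX.ext (LinearMap.ext fun x => by
    show ψ (x • (y + z)) = ψ (x • y) + ψ (x • z)
    rw [smul_add, map_add])
  map_smul' b y := CoX.ext (LinearMap.ext fun x => by
    show ψ (x • (b • y)) = ψ ((x * b) • y)
    rw [mul_smul])

theorem mkCo_fn (M N : GM 𝒜) (a : ℤ) (ψ : M.X →ₗ[K] N.X)
    (h : ∀ n x, ψ (M.pr n x) = N.pr (n + a) (ψ x)) (y : M.X) (x : A) :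
    CoX.fn (mkCo M N a ψ h y) x = ψ (x • y) := rfl

theorem mkCo_mem (M N : GM 𝒜) (a : ℤ) (ψ : M.X →ₗ[K] N.X)
    (h : ∀ n x, ψ (M.pr n x) = N.pr (n + a) (ψ x)) : mkCo M N a ψ h ∈ Hm M (coind N) a := by
  intro n y
  refine CoX.ext (lin_ext (𝒜 := 𝒜) fun k x hx => ?_)
  rw [mkCo_fn]
  show _ = cpr N (n + a) (CoX.fn (mkCo M N a ψ h y)) x
  rw [cpr_apply N _ k _ hx, mkCo_fn, ← M.pr_smul k x hx, h]
  congr 2
  ring

/-- The embedding into the coinduced module. -/
noncomputable def emb (N : GM 𝒜) : N.X →ₗ[A] (coind N).X :=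
  mkCo N N 0 LinearMap.id (fun n x => by simp)

theorem emb_fn (N : GM 𝒜) (y : N.X) (x : A) : CoX.fn (emb N y) x = x • y := rfl

theorem emb_mem (N : GM 𝒜) : emb N ∈ Hm N (coind N) 0 := mkCo_mem _ _ _ _ _

theorem emb_inj (N : GM 𝒜) : Function.Injective (emb N) := by
  intro y z h
  have h1 : CoX.fn (emb N y) 1 = CoX.fn (emb N z) 1 := by rw [h]
  rwa [emb_fn, emb_fn, one_smul, one_smul] at h1

omit [GradedAlgebra 𝒜] in
theorem range_hom {M N : GM 𝒜} {a : ℤ} {f : M.X →ₗ[A] N.X} (hf : f ∈ Hm M N a) :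
    N.Hom (LinearMap.range f) := by
  rintro n _ ⟨x, rfl⟩
  refine ⟨M.pr (n - a) x, ?_⟩
  rw [hf, sub_add_cancel]

omit [GradedAlgebra 𝒜] in
theorem ker_hom {M N : GM 𝒜} {a : ℤ} {f : M.X →ₗ[A] N.X} (hf : f ∈ Hm M N a) :
    M.Hom (LinearMap.ker f) := by
  intro n x hx
  rw [LinearMap.mem_ker] at hx ⊢
  rw [hf, hx, map_zero]

variable (𝒜) in
/-- The cosyzygies of `A`. -/
noncomputable def IX : ℕ → GM 𝒜
  | 0 => AsA 𝒜
  | i + 1 => (coind (IX i)).quo (LinearMap.range (emb (IX i))) (range_hom (emb_mem _))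

/-- The projection of the injective module to the next cosyzygy. -/
noncomputable def pI (i : ℕ) : (coind (IX 𝒜 i)).X →ₗ[A] (IX 𝒜 (i + 1)).X :=
  (LinearMap.range (emb (IX 𝒜 i))).mkQ

theorem pI_mem (i : ℕ) : pI i ∈ Hm (coind (IX 𝒜 i)) (IX 𝒜 (i + 1)) 0 := by
  intro n x
  rw [add_zero]
  rfl

theorem pI_surj (i : ℕ) : Function.Surjective (pI (𝒜 := 𝒜) i) := Submodule.mkQ_surjective _

theorem pI_ker (i : ℕ) : LinearMap.ker (pI (𝒜 := 𝒜) i) = LinearMap.range (emb (IX 𝒜 i)) :=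
  Submodule.ker_mkQ _

/-- The maps of degree `a` to the `i`-th cosyzygy which factor through the injective module. -/
noncomputable def Bd : (i : ℕ) → (M : GM 𝒜) → (a : ℤ) → Submodule K (Hm M (IX 𝒜 i) a)
  | 0, _, _ => ⊥
  | i + 1, M, a => LinearMap.range ((LinearMap.restrict (LinearMap.compRight K (pI (𝒜 := 𝒜) i))
      (fun _ hf => Hm_0comp hf (pI_mem i)) : Hm M (coind (IX 𝒜 i)) a →ₗ[K] Hm M (IX 𝒜 (i + 1)) a))

end Pool.Agent.NAS
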