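import Mathlib

/-!
# Graded modules with projections (MP_ef4bac_al, project NAS)
-/

set_option autoImplicit false

namespace Pool.Agent.NAS

open Module

universe u

section base

variable {K A : Type u} [Field K] [Ring A] [Algebra K A] (𝒜 : ℕ → Submodule K A)

/-- The piece of degree `n`, for integers `n`. -/
def hA (n : ℤ) : Submodule K A := if 0 ≤ n then 𝒜 n.toNat else ⊥

/-- A graded left module: the projections to the homogeneous components are part of the data. -/
structure GM where
  X : Type u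
  [ab : AddCommGroup X]
  [modK : Module K X]
  [modA : Module A X]
  [tow : IsScalarTower K A X]
  pr : ℤ → X →ₗ[K] X
  pr_self : ∀ n x, pr n (pr n x) = pr n x
  pr_ne : ∀ n m x, n ≠ m → pr n (pr m x) = 0
  pr_sum : ∀ x, ∃ s : Finset ℤ, ∑ n ∈ s, pr n x = x
  pr_smul : ∀ k, ∀ a ∈ hA 𝒜 k, ∀ n x, pr (k + n) (a • x) = a • pr n x

attribute [instance] GM.ab GM.modK GM.modA GM.tow

variable {𝒜}

/-- The component of degree `n`. -/
def GM.dg (M : GM 𝒜) (n : ℤ) : Submodule K M.X := LinearMap.range (M.pr n)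

theorem GM.mem_dg {M : GM 𝒜} {n : ℤ} {x : M.X} : x ∈ M.dg n ↔ M.pr n x = x := by
  constructor
  · rintro ⟨y, rfl⟩
    exact M.pr_self n y
  · intro h
    exact ⟨x, h⟩

theorem GM.pr_mem (M : GM 𝒜) (n : ℤ) (x : M.X) : M.pr n x ∈ M.dg n := ⟨x, rfl⟩

/-- The Hilbert function. -/
noncomputable def GM.hil (M : GM 𝒜) (n : ℤ) : ℕ := finrank K (M.dg n)

/-- Homogeneous submodules. -/
def GM.Hom (M : GM 𝒜) (N : Submodule A M.X) : Prop := ∀ n x, x ∈ N → M.pr n x ∈ N

/-- A homogeneous submodule as a graded module. -/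
@[reducible] def GM.sub (M : GM 𝒜) (N : Submodule A M.X) (h : M.Hom N) : GM 𝒜 where
  X := N
  pr n := ((M.pr n).comp (N.subtype.restrictScalars K)).codRestrict (N.restrictScalars K)
    (fun x => h n x x.2)
  pr_self n x := Subtype.ext (M.pr_self n x)
  pr_ne n m x hnm := Subtype.ext (M.pr_ne n m x hnm)
  pr_sum x := by
    obtain ⟨s, hs⟩ := M.pr_sum x
    refine ⟨s, Subtype.ext ?_⟩
    rw [AddSubmonoidClass.coe_finsetSum]
    exact hs
  pr_smul k a ha n x := Subtype.ext (M.pr_smul k a ha n x)

theorem GM.sub_pr (M : GM 𝒜) (N : Submodule A M.X) (h : M.Hom N) (n : ℤ) (x : N) :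
    Subtype.val (p := fun y => y ∈ N) ((M.sub N h).pr n x) = M.pr n x := rfl

/-- The quotient by a homogeneous submodule. -/
@[reducible] def GM.quo (M : GM 𝒜) (N : Submodule A M.X) (h : M.Hom N) : GM 𝒜 where
  X := M.X ⧸ N
  pr n := (Submodule.Quotient.restrictScalarsEquiv K N).toLinearMap ∘ₗ
    (Submodule.mapQ (N.restrictScalars K) (N.restrictScalars K) (M.pr n) (fun x hx => h n x hx)) ∘ₗ
    (Submodule.Quotient.restrictScalarsEquiv K N).symm.toLinearMap
  pr_self n x := by
    obtain ⟨x, rfl⟩ := Submodule.Quotient.mk_surjective N x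
    exact congrArg (Submodule.Quotient.mk (p := N)) (M.pr_self n x)
  pr_ne n m x hnm := by
    obtain ⟨x, rfl⟩ := Submodule.Quotient.mk_surjective N x
    exact congrArg (Submodule.Quotient.mk (p := N)) (M.pr_ne n m x hnm)
  pr_sum x := by
    obtain ⟨x, rfl⟩ := Submodule.Quotient.mk_surjective N x
    obtain ⟨s, hs⟩ := M.pr_sum x
    refine ⟨s, ?_⟩
    have h1 := congrArg (N.mkQ) hs
    rw [map_sum] at h1
    exact h1
  pr_smul k a ha n x := by
    obtain ⟨x, rfl⟩ := Submodule.Quotient.mk_surjective N x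
    exact congrArg (Submodule.Quotient.mk (p := N)) (M.pr_smul k a ha n x)

theorem GM.quo_pr (M : GM 𝒜) (N : Submodule A M.X) (h : M.Hom N) (n : ℤ) (x : M.X) :
    (M.quo N h).pr n (Submodule.Quotient.mk x) = Submodule.Quotient.mk (M.pr n x) := rfl

/-- Finite direct sums with shifts: the component `i` is shifted by `w i`. -/
@[reducible] def GM.pi {r : ℕ} (w : Fin r → ℤ) (M : GM 𝒜) : GM 𝒜 where
  X := Fin r → M.X
  pr n := LinearMap.pi fun i => (M.pr (n - w i)).comp (LinearMap.proj i)
  pr_self n x := by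
    funext i
    exact M.pr_self _ _
  pr_ne n m x hnm := by
    funext i
    exact M.pr_ne _ _ _ (fun h => hnm (by omega))
  pr_sum x := by
    classical
    have hz : ∀ (y : M.X) (s : Finset ℤ), ∑ n ∈ s, M.pr n y = y → ∀ n ∉ s, M.pr n y = 0 := by
      intro y s hs n hn
      rw [← hs, map_sum]
      refine Finset.sum_eq_zero fun m hm => M.pr_ne _ _ _ ?_
      rintro rfl
      exact hn hm
    choose s hs using fun i => M.pr_sum (x i)
    refine ⟨Finset.univ.biUnion fun i => (s i).image (· + w i), ?_⟩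
    funext i
    rw [Finset.sum_apply]
    have h1 : ∑ n ∈ Finset.univ.biUnion (fun i => (s i).image (· + w i)), M.pr (n - w i) (x i)
        = ∑ n ∈ (s i).image (· + w i), M.pr (n - w i) (x i) := by
      symm
      apply Finset.sum_subset
      · intro n hn
        exact Finset.mem_biUnion.2 ⟨i, Finset.mem_univ _, hn⟩
      · intro n _ hn
        apply hz (x i) (s i) (hs i)
        intro h
        exact hn (Finset.mem_image.2 ⟨n - w i, h, by ring⟩)
    refine (h1.trans ?_)
    rw [Finset.sum_image (fun a _ b _ h => by simpa using h)]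
    simpa using hs i
  pr_smul k a ha n x := by
    funext i
    have h1 : k + n - w i = k + (n - w i) := by ring
    show M.pr (k + n - w i) (a • x i) = a • M.pr (n - w i) (x i)
    rw [h1]
    exact M.pr_smul k a ha _ _

theorem GM.pi_pr {r : ℕ} (w : Fin r → ℤ) (M : GM 𝒜) (n : ℤ) (x : Fin r → M.X) (i : Fin r) :
    (GM.pi w M).pr n x i = M.pr (n - w i) (x i) := rfl

/-- Homogeneous maps of degree `a`. -/
def Hm (M N : GM 𝒜) (a : ℤ) : Submodule K (M.X →ₗ[A] N.X) where
  carrier := {f | ∀ n x, f (M.pr n x) = N.pr (n + a) (f x)}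
  add_mem' {f g} hf hg n x := by
    rw [LinearMap.add_apply, LinearMap.add_apply, map_add, hf, hg]
  zero_mem' n x := by simp
  smul_mem' c f hf n x := by
    rw [LinearMap.smul_apply, LinearMap.smul_apply, map_smul, hf]

theorem mem_Hm {M N : GM 𝒜} {a : ℤ} {f : M.X →ₗ[A] N.X} :
    f ∈ Hm M N a ↔ ∀ n x, f (M.pr n x) = N.pr (n + a) (f x) := Iff.rfl

end base

section algebra

variable {K A : Type u} [Field K] [Ring A] [Algebra K A] (𝒜 : ℕ → Submodule K A)
  [GradedAlgebra 𝒜]

/-- The projections of the algebra. -/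
noncomputable def prA (n : ℤ) : A →ₗ[K] A :=
  if 0 ≤ n then GradedAlgebra.proj 𝒜 n.toNat else 0

theorem prA_nat (n : ℕ) (x : A) : prA 𝒜 (n : ℤ) x = (DirectSum.decompose 𝒜 x n : A) := by
  unfold prA
  rw [if_pos (Int.natCast_nonneg n), Int.toNat_natCast]
  rfl

theorem prA_neg {n : ℤ} (h : n < 0) (x : A) : prA 𝒜 n x = 0 := by
  unfold prA
  rw [if_neg (not_le.2 h)]
  rfl

/-- The algebra as a graded left module. -/
@[reducible] noncomputable def AsA : GM 𝒜 where
  X := A
  pr := prA 𝒜
  pr_self n x := by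
    rcases le_or_gt 0 n with h | h
    · lift n to ℕ using h
      rw [prA_nat, prA_nat]
      exact DirectSum.decompose_of_mem_same 𝒜 (SetLike.coe_mem _)
    · rw [prA_neg 𝒜 h, prA_neg 𝒜 h]
  pr_ne n m x hnm := by
    rcases le_or_gt 0 n with h | h
    · rcases le_or_gt 0 m with h' | h'
      · lift n to ℕ using h
        lift m to ℕ using h'
        rw [prA_nat, prA_nat]
        exact DirectSum.decompose_of_mem_ne 𝒜 (SetLike.coe_mem _) (fun hh => hnm (by rw [hh]))
      · rw [prA_neg 𝒜 h', map_zero]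
    · rw [prA_neg 𝒜 h]
  pr_sum x := by
    classical
    refine ⟨(DirectSum.decompose 𝒜 x).support.image (fun n : ℕ => (n : ℤ)), ?_⟩
    rw [Finset.sum_image (fun a _ b _ h => by simpa using h)]
    simp only [prA_nat]
    exact DirectSum.sum_support_decompose 𝒜 x
  pr_smul k a ha n x := by
    rcases le_or_gt 0 k with hk | hk
    · lift k to ℕ using hk
      have ha' : a ∈ 𝒜 k := by
        have h1 : hA 𝒜 (k : ℤ) = 𝒜 k := by
          unfold hA
          rw [if_pos (Int.natCast_nonneg k), Int.toNat_natCast]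
        rwa [h1] at ha
      rw [smul_eq_mul, smul_eq_mul]
      rcases le_or_gt 0 n with hn | hn
      · lift n to ℕ using hn
        have h2 : (k : ℤ) + (n : ℤ) = ((k + n : ℕ) : ℤ) := by push_cast; ring
        rw [h2, prA_nat, prA_nat]
        exact DirectSum.coe_decompose_mul_add_of_left_mem 𝒜 ha'
      · rw [prA_neg 𝒜 hn, mul_zero]
        rcases le_or_gt 0 ((k : ℤ) + n) with hs | hs
        · obtain ⟨m, hm⟩ := Int.eq_ofNat_of_zero_le hs
          rw [hm]
          have := DirectSum.coe_decompose_mul_of_left_mem_of_not_le 𝒜 (b := x) ha'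
            (show ¬ k ≤ m by omega)
          rw [← this]
          exact prA_nat 𝒜 m _
        · rw [prA_neg 𝒜 hs]
    · have ha' : a = 0 := by
        unfold hA at ha
        rw [if_neg (not_le.2 hk)] at ha
        exact (Submodule.mem_bot K).1 ha
      rw [ha', zero_smul, zero_smul, map_zero]

/-- The free graded module with generators of degrees `w i`. -/
@[reducible] noncomputable def Fre {r : ℕ} (w : Fin r → ℤ) : GM 𝒜 := GM.pi w (AsA 𝒜)

end algebra

end Pool.Agent.NAS
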