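import Pool.Agent.Lib_helper19.NAS.Co

/-!
# Ext groups, complexes, modules `V_j` (MP_ef4bac_al, project NAS)
-/

set_option autoImplicit false

namespace Pool.Agent.NAS

open Module

universe u

section ext

variable {K A : Type u} [Field K] [Ring A] [Algebra K A] {𝒜 : ℕ → Submodule K A}

/-- Short exact sequences of graded modules, all maps of degree `0`. -/
structure SES (L M N : GM 𝒜) where
  f : L.X →ₗ[A] M.X
  g : M.X →ₗ[A] N.X
  hf : f ∈ Hm L M 0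
  hg : g ∈ Hm M N 0
  inj : Function.Injective f
  surj : Function.Surjective g
  ex : LinearMap.range f = LinearMap.ker g

variable [GradedAlgebra 𝒜]

/-- The component of degree `a` of `Ext^i(M, A)`. -/
abbrev E (i : ℕ) (M : GM 𝒜) (a : ℤ) : Type u := Hm M (IX 𝒜 i) a ⧸ Bd i M a

/-- Composition with a map of degree `0`. -/
def preH {M N : GM 𝒜} (f : M.X →ₗ[A] N.X) (hf : f ∈ Hm M N 0) (P : GM 𝒜) (a : ℤ) :
    Hm N P a →ₗ[K] Hm M P a where
  toFun h := ⟨h.1 ∘ₗ f, Hm_comp0 hf h.2⟩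
  map_add' _ _ := rfl
  map_smul' _ _ := rfl

theorem Bd_pre {M N : GM 𝒜} (f : M.X →ₗ[A] N.X) (hf : f ∈ Hm M N 0) (i : ℕ) (a : ℤ) :
    Bd i N a ≤ (Bd i M a).comap (preH f hf (IX 𝒜 i) a) := by
  cases i with
  | zero => exact bot_le
  | succ i =>
    rintro _ ⟨h, rfl⟩
    exact ⟨preH f hf (coind (IX 𝒜 i)) a h, rfl⟩

/-- Functoriality of `Ext^i(-, A)`. -/
noncomputable def Emap {M N : GM 𝒜} (f : M.X →ₗ[A] N.X) (hf : f ∈ Hm M N 0) (i : ℕ) (a : ℤ) :
    E i N a →ₗ[K] E i M a :=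
  Submodule.mapQ _ _ (preH f hf (IX 𝒜 i) a) (Bd_pre f hf i a)

/-- The dimension of the component of degree `a` of `Ext^i(M, A)`. -/
noncomputable def eE (i : ℕ) (M : GM 𝒜) (a : ℤ) : ℕ := finrank K (E i M a)

end ext

section complexes

variable {K A : Type u} [Field K] [Ring A] [Algebra K A] (𝒜 : ℕ → Submodule K A)

/-- Complexes of finitely generated graded free modules, given by matrices: the module number `i`
has generators of degrees `w i t`; the map from number `i + 1` to number `i` is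
`x ↦ (t ↦ ∑ s, x s * D (i + 1) i s t)` on left modules. -/
structure MC where
  n : ℕ → ℕ
  w : ∀ i, Fin (n i) → ℤ
  D : ∀ i j, Fin (n i) → Fin (n j) → A
  deg : ∀ i j s t, D i j s t ∈ hA 𝒜 (w i s - w j t)
  Dne : ∀ i j, i ≠ j + 1 → ∀ s t, D i j s t = 0
  DD : ∀ i s t, ∑ r, D (i + 2) (i + 1) s r * D (i + 1) i r t = 0

variable {𝒜}

/-- The differential of the cochain complex `Hom(P, M)`. -/
def MC.cod (P : MC 𝒜) (M : GM 𝒜) (i : ℕ) : (Fin (P.n i) → M.X) →ₗ[K] (Fin (P.n (i + 1)) → M.X) where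
  toFun m s := ∑ t, P.D (i + 1) i s t • m t
  map_add' m m' := by
    funext s
    simp [Finset.sum_add_distrib]
  map_smul' c m := by
    funext s
    simp only [Pi.smul_apply, RingHom.id_apply, Finset.smul_sum]
    exact Finset.sum_congr rfl fun t _ => smul_comm _ _ _

theorem MC.cod_apply (P : MC 𝒜) (M : GM 𝒜) (i : ℕ) (m : Fin (P.n i) → M.X)
    (s : Fin (P.n (i + 1))) : P.cod M i m s = ∑ t, P.D (i + 1) i s t • m t := rfl

/-- Cochains of degree `a`. -/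
def MC.Cc (P : MC 𝒜) (M : GM 𝒜) (i : ℕ) (a : ℤ) : Submodule K (Fin (P.n i) → M.X) :=
  Submodule.pi Set.univ fun t => M.dg (P.w i t + a)

/-- Cocycles of degree `a`. -/
def MC.Zc (P : MC 𝒜) (M : GM 𝒜) (i : ℕ) (a : ℤ) : Submodule K (Fin (P.n i) → M.X) :=
  P.Cc M i a ⊓ LinearMap.ker (P.cod M i)

/-- Coboundaries of degree `a`. -/
def MC.Bc (P : MC 𝒜) (M : GM 𝒜) : (i : ℕ) → (a : ℤ) → Submodule K (Fin (P.n i) → M.X)
  | 0, _ => ⊥
  | i + 1, a => (P.Cc M i a).map (P.cod M i)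

/-- The cohomology of `Hom(P, M)` in degree `a`. -/
abbrev MC.SH (P : MC 𝒜) (M : GM 𝒜) (i : ℕ) (a : ℤ) : Type u :=
  ↥(P.Zc M i a) ⧸ (P.Bc M i a).submoduleOf (P.Zc M i a)

/-- Its dimension. -/
noncomputable def MC.sh (P : MC 𝒜) (M : GM 𝒜) (i : ℕ) (a : ℤ) : ℕ := finrank K (P.SH M i a)

/-- Two-sided ideals. -/
def TS (Q : Ideal A) : Prop := ∀ x ∈ Q, ∀ a : A, x * a ∈ Q

/-- Right multiplication on `A/Q`. -/
def rho (Q : Ideal A) (h : TS Q) (a : A) : (A ⧸ Q) →ₗ[A] (A ⧸ Q) :=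
  Submodule.mapQ Q Q (LinearMap.toSpanSingleton A A a) (fun x hx => by
    rw [Submodule.mem_comap, LinearMap.toSpanSingleton_apply]
    exact h x hx a)

theorem rho_mk (Q : Ideal A) (h : TS Q) (a x : A) :
    rho Q h a (Submodule.Quotient.mk x) = Submodule.Quotient.mk (x * a) := rfl

end complexes

section homology

variable {K A : Type u} [Field K] [Ring A] [Algebra K A] {𝒜 : ℕ → Submodule K A}
  [GradedAlgebra 𝒜]

/-- The left differential on the free modules. -/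
noncomputable def MC.bd (P : MC 𝒜) (i : ℕ) :
    (Fin (P.n (i + 1)) → A) →ₗ[A] (Fin (P.n i) → A) where
  toFun x t := ∑ s, x s * P.D (i + 1) i s t
  map_add' x y := by
    funext t
    simp [add_mul, Finset.sum_add_distrib]
  map_smul' a x := by
    funext t
    simp only [Pi.smul_apply, smul_eq_mul, RingHom.id_apply, Finset.mul_sum, mul_assoc]

/-- Homogeneous left ideals. -/
def HI (𝒜 : ℕ → Submodule K A) [GradedAlgebra 𝒜] (Q : Ideal A) : Prop :=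
  (AsA 𝒜).Hom Q

/-- `A/Q` as a graded module. -/
@[reducible] noncomputable def CQ (Q : Ideal A) (h : HI 𝒜 Q) : GM 𝒜 := (AsA 𝒜).quo Q h

/-- `P_i/QP_i`. -/
@[reducible] noncomputable def PB (P : MC 𝒜) (Q : Ideal A) (h : HI 𝒜 Q) (i : ℕ) : GM 𝒜 :=
  GM.pi (P.w i) (CQ Q h)

/-- The differential on `P_i/QP_i`. -/
noncomputable def bdQ (P : MC 𝒜) (Q : Ideal A) (h : HI 𝒜 Q) (h2 : TS Q) (i : ℕ) :
    (PB P Q h (i + 1)).X →ₗ[A] (PB P Q h i).X :=
  LinearMap.pi fun t => ∑ s, (rho Q h2 (P.D (i + 1) i s t)) ∘ₗ LinearMap.proj s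

theorem bdQ_apply (P : MC 𝒜) (Q : Ideal A) (h : HI 𝒜 Q) (h2 : TS Q) (i : ℕ)
    (x : Fin (P.n (i + 1)) → A ⧸ Q) (t : Fin (P.n i)) :
    bdQ P Q h h2 i x t = ∑ s, rho Q h2 (P.D (i + 1) i s t) (x s) := by
  simp [bdQ]

theorem rho_mem (Q : Ideal A) (h : HI 𝒜 Q) (h2 : TS Q) {k : ℤ} {a : A} (ha : a ∈ hA 𝒜 k) :
    rho Q h2 a ∈ Hm (CQ Q h) (CQ Q h) k := by
  intro n x
  obtain ⟨x, rfl⟩ := Submodule.Quotient.mk_surjective Q x
  refine congrArg (Submodule.Quotient.mk (p := Q)) ?_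
  show prA 𝒜 n x * a = prA 𝒜 (n + k) (x * a)
  refine GM.induct (M := AsA 𝒜) (P := fun x => prA 𝒜 n x * a = prA 𝒜 (n + k) (x * a)) x ?_ ?_ ?_
  · simp
  · intro x y hx hy
    rw [map_add, add_mul, hx, hy, add_mul, map_add]
  · intro m x hx
    have hx' : x ∈ hA 𝒜 m := prA_dg.1 hx
    by_cases hnm : n = m
    · subst hnm
      rw [prA_of_mem hx', prA_of_mem (hA_mul hx' ha)]
    · have h1 : prA 𝒜 n x = 0 := GM.pr_dg_ne hx hnm
      have h3 : prA 𝒜 (n + k) (x * a) = 0 :=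
        GM.pr_dg_ne (M := AsA 𝒜) (prA_dg.2 (hA_mul hx' ha)) (fun hh => hnm (by omega))
      rw [h1, h3, zero_mul]

theorem bdQ_mem (P : MC 𝒜) (Q : Ideal A) (h : HI 𝒜 Q) (h2 : TS Q) (i : ℕ) :
    bdQ P Q h h2 i ∈ Hm (PB P Q h (i + 1)) (PB P Q h i) 0 := by
  intro n x
  funext t
  rw [bdQ_apply, add_zero, GM.pi_pr, bdQ_apply, map_sum]
  refine Finset.sum_congr rfl fun s _ => ?_
  rw [GM.pi_pr]
  have h1 := rho_mem Q h h2 (P.deg (i + 1) i s t) (n - P.w (i + 1) s) (x s)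
  rw [h1]
  congr 2
  ring

/-- The cycles. -/
noncomputable def Zi (P : MC 𝒜) (Q : Ideal A) (h : HI 𝒜 Q) (h2 : TS Q) :
    (i : ℕ) → Submodule A (PB P Q h i).X
  | 0 => ⊤
  | i + 1 => LinearMap.ker (bdQ P Q h h2 i)

theorem Zi_hom (P : MC 𝒜) (Q : Ideal A) (h : HI 𝒜 Q) (h2 : TS Q) (i : ℕ) :
    (PB P Q h i).Hom (Zi P Q h h2 i) := by
  cases i with
  | zero => intro n x _; exact Submodule.mem_top
  | succ i => exact ker_hom (bdQ_mem P Q h h2 i)

/-- The boundaries. -/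
noncomputable def Bi (P : MC 𝒜) (Q : Ideal A) (h : HI 𝒜 Q) (h2 : TS Q) (i : ℕ) :
    Submodule A (PB P Q h i).X := LinearMap.range (bdQ P Q h h2 i)

theorem Bi_hom (P : MC 𝒜) (Q : Ideal A) (h : HI 𝒜 Q) (h2 : TS Q) (i : ℕ) :
    (PB P Q h i).Hom (Bi P Q h h2 i) := range_hom (bdQ_mem P Q h h2 i)

/-- The graded module of cycles. -/
@[reducible] noncomputable def GZ (P : MC 𝒜) (Q : Ideal A) (h : HI 𝒜 Q) (h2 : TS Q) (i : ℕ) : GM 𝒜 :=
  (PB P Q h i).sub (Zi P Q h h2 i) (Zi_hom P Q h h2 i)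

/-- The graded module of boundaries. -/
@[reducible] noncomputable def GB (P : MC 𝒜) (Q : Ideal A) (h : HI 𝒜 Q) (h2 : TS Q) (i : ℕ) : GM 𝒜 :=
  (PB P Q h i).sub (Bi P Q h h2 i) (Bi_hom P Q h h2 i)

theorem BZ_hom (P : MC 𝒜) (Q : Ideal A) (h : HI 𝒜 Q) (h2 : TS Q) (i : ℕ) :
    (GZ P Q h h2 i).Hom ((Bi P Q h h2 i).submoduleOf (Zi P Q h h2 i)) := by
  intro n x hx
  exact Bi_hom P Q h h2 i n _ hx

/-- The homology of `P/QP`. -/
@[reducible] noncomputable def GH (P : MC 𝒜) (Q : Ideal A) (h : HI 𝒜 Q) (h2 : TS Q) (i : ℕ) : GM 𝒜 :=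
  (GZ P Q h h2 i).quo ((Bi P Q h h2 i).submoduleOf (Zi P Q h h2 i)) (BZ_hom P Q h h2 i)

/-- The elements killed by `Q`. -/
def Gam (Q : Ideal A) (h2 : TS Q) (M : GM 𝒜) : Submodule A M.X where
  carrier := {x | ∀ q ∈ Q, q • x = 0}
  add_mem' {x y} hx hy q hq := by rw [smul_add, hx q hq, hy q hq, add_zero]
  zero_mem' q _ := smul_zero q
  smul_mem' a x hx q hq := by
    rw [← mul_smul]
    exact hx _ (h2 q hq a)

omit [GradedAlgebra 𝒜] in
theorem mem_Gam {Q : Ideal A} {h2 : TS Q} {M : GM 𝒜} {x : M.X} :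
    x ∈ Gam Q h2 M ↔ ∀ q ∈ Q, q • x = 0 := Iff.rfl

theorem Gam_hom (Q : Ideal A) (h : HI 𝒜 Q) (h2 : TS Q) (M : GM 𝒜) : M.Hom (Gam Q h2 M) := by
  intro n x hx q hq
  obtain ⟨s, hs⟩ := (AsA 𝒜).pr_sum q
  have h1 : ∀ k, prA 𝒜 k q • M.pr n x = 0 := by
    intro k
    rw [← M.pr_smul k _ (prA_mem k q), hx _ (h k q hq), map_zero]
  have h3 : q = ∑ k ∈ s, prA 𝒜 k q := hs.symm
  rw [h3, Finset.sum_smul]
  exact Finset.sum_eq_zero fun k _ => h1 k

/-- The graded module of the elements killed by `Q`. -/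
@[reducible] def GaM (Q : Ideal A) (h : HI 𝒜 Q) (h2 : TS Q) (M : GM 𝒜) : GM 𝒜 :=
  M.sub (Gam Q h2 M) (Gam_hom Q h h2 M)

/-- The map on the elements killed by `Q`. -/
def gaMap (Q : Ideal A) (h : HI 𝒜 Q) (h2 : TS Q) {M N : GM 𝒜} (f : M.X →ₗ[A] N.X) :
    (GaM Q h h2 M).X →ₗ[A] (GaM Q h h2 N).X :=
  LinearMap.restrict f (p := Gam Q h2 M) (q := Gam Q h2 N) (fun x hx q hq => by
    rw [← map_smul, hx q hq, map_zero])

theorem gaMap_mem (Q : Ideal A) (h : HI 𝒜 Q) (h2 : TS Q) {M N : GM 𝒜} {f : M.X →ₗ[A] N.X} {a : ℤ}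
    (hf : f ∈ Hm M N a) : gaMap Q h h2 f ∈ Hm (GaM Q h h2 M) (GaM Q h h2 N) a := by
  intro n x
  exact Subtype.ext (hf n x.1)

/-- The graded module `V_j`, the sum over `a` of the `Ext^j(A/Q, A)_a`, with the left module
structure given by the right multiplications of `A/Q`. -/
@[reducible] noncomputable def VV (Q : Ideal A) (h : HI 𝒜 Q) (h2 : TS Q) : ℕ → GM 𝒜
  | 0 => GaM Q h h2 (AsA 𝒜)
  | j + 1 => (GaM Q h h2 (IX 𝒜 (j + 1))).quo (LinearMap.range (gaMap Q h h2 (pI (𝒜 := 𝒜) j)))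
      (range_hom (gaMap_mem Q h h2 (pI_mem j)))

/-- `P` is a resolution of `M` of length at most `d`. -/
structure Res (P : MC 𝒜) (M : GM 𝒜) (d : ℕ) where
  zero : ∀ i, d < i → P.n i = 0
  ε : (GM.pi (P.w 0) (AsA 𝒜)).X →ₗ[A] M.X
  hε : ε ∈ Hm (GM.pi (P.w 0) (AsA 𝒜)) M 0
  surj : Function.Surjective ε
  ex0 : LinearMap.range (P.bd 0) = LinearMap.ker ε
  ex : ∀ i, LinearMap.range (P.bd (i + 1)) = LinearMap.ker (P.bd i)

/-- The complex of left modules has finite-dimensional homology. -/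
def MC.FinH (P : MC 𝒜) : Prop :=
  Module.Finite K ((Fin (P.n 0) → A) ⧸ (LinearMap.range (P.bd 0)).restrictScalars K) ∧
  ∀ i, Module.Finite K (↥((LinearMap.ker (P.bd i)).restrictScalars K) ⧸
    ((LinearMap.range (P.bd (i + 1))).restrictScalars K).submoduleOf
      ((LinearMap.ker (P.bd i)).restrictScalars K))

end homology

section opposite

variable {K A : Type u} [Field K] [Ring A] [Algebra K A] (𝒜 : ℕ → Submodule K A)

/-- The grading of the opposite algebra. -/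
def opG (n : ℕ) : Submodule K Aᵐᵒᵖ := (𝒜 n).map (MulOpposite.opLinearEquiv K).toLinearMap

theorem mem_opG {n : ℕ} {x : Aᵐᵒᵖ} : x ∈ opG 𝒜 n ↔ x.unop ∈ 𝒜 n := by
  constructor
  · rintro ⟨y, hy, rfl⟩
    exact hy
  · intro h
    exact ⟨x.unop, h, rfl⟩

/-- The map from a homogeneous component to the component of the opposite algebra. -/
def opPart (n : ℕ) : 𝒜 n →ₗ[K] opG 𝒜 n :=
  ((MulOpposite.opLinearEquiv K).toLinearMap ∘ₗ (𝒜 n).subtype).codRestrict _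
    (fun x => ⟨x.1, x.2, rfl⟩)

theorem opPart_coe (n : ℕ) (x : 𝒜 n) : (opPart 𝒜 n x : Aᵐᵒᵖ) = MulOpposite.op (x : A) := rfl

theorem opDec_left [GradedAlgebra 𝒜] (x : A) :
    DirectSum.coeLinearMap (opG 𝒜) (DirectSum.lmap (opPart 𝒜) (DirectSum.decompose 𝒜 x))
      = MulOpposite.op x := by
  induction x using DirectSum.Decomposition.inductionOn 𝒜 with
  | zero => simp
  | homogeneous x =>
    rw [DirectSum.decompose_coe, ← DirectSum.lof_eq_of K, DirectSum.lmap_lof,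
      DirectSum.coeLinearMap_lof, opPart_coe]
  | add x y hx hy =>
    rw [DirectSum.decompose_add, map_add, map_add, hx, hy, MulOpposite.op_add]

noncomputable instance [GradedAlgebra 𝒜] : GradedAlgebra (opG 𝒜) := by
  classical
  refine GradedRing.mk (toGradedMonoid := ?_) (toDecomposition := ?_)
  · refine SetLike.GradedMonoid.mk (toGradedOne := ⟨?_⟩) (toGradedMul := ⟨?_⟩)
    · rw [mem_opG]
      exact SetLike.GradedOne.one_mem
    · intro i j x y hx hy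
      rw [mem_opG] at hx hy ⊢
      rw [MulOpposite.unop_mul, add_comm]
      exact SetLike.GradedMul.mul_mem hy hx
  · refine DirectSum.Decomposition.ofLinearMap (opG 𝒜)
      (DirectSum.lmap (opPart 𝒜) ∘ₗ (DirectSum.decomposeLinearEquiv 𝒜).toLinearMap ∘ₗ
        (MulOpposite.opLinearEquiv K).symm.toLinearMap) ?_ ?_
    · refine LinearMap.ext fun x => ?_
      exact opDec_left 𝒜 x.unop
    · refine DirectSum.linearMap_ext K fun i => LinearMap.ext fun x => ?_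
      obtain ⟨y, hy⟩ : ∃ y : 𝒜 i, opPart 𝒜 i y = x :=
        ⟨⟨x.1.unop, (mem_opG 𝒜).1 x.2⟩, rfl⟩
      subst hy
      simp only [LinearMap.comp_apply, LinearMap.id_apply, DirectSum.coeLinearMap_lof, opPart_coe,
        LinearEquiv.coe_coe, MulOpposite.coe_opLinearEquiv_symm, MulOpposite.unop_op,
        DirectSum.decomposeLinearEquiv_apply, DirectSum.decompose_coe]
      rw [← DirectSum.lof_eq_of K, DirectSum.lmap_lof]

end opposite

section numbers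

open Filter Topology

/-- The value of the Hilbert series at `t`. -/
noncomputable def HH (f : ℤ → ℕ) (t : ℝ) : ℝ := ∑' a : ℤ, (f a : ℝ) * t ^ a

/-- Functions bounded below in their support and of polynomial growth. -/
def Adm (f : ℤ → ℕ) : Prop :=
  ∃ N C r : ℕ, (∀ a : ℤ, a < -(N : ℤ) → f a = 0) ∧ ∀ a : ℤ, (f a : ℝ) ≤ C * (|(a : ℝ)| + 1) ^ r

/-- Small with respect to `φ`. -/
def Sml (φ : ℝ → ℝ) (f : ℤ → ℕ) : Prop :=
  Tendsto (fun t => HH f t / φ t) (𝓝[<] (1 : ℝ)) (𝓝 0)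

/-- Bounded with respect to `φ`. -/
def Bdd (φ : ℝ → ℝ) (f : ℤ → ℕ) : Prop := ∃ B : ℝ, ∀ᶠ t in 𝓝[<] (1 : ℝ), HH f t ≤ B * φ t

/-- Finite support. -/
def FS (f : ℤ → ℕ) : Prop := (Function.support f).Finite

end numbers



end Pool.Agent.NAS
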