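import Pool.Agent.Lib_helper19.NAS.Defs2

/-!
# Hypotheses, transposed complexes, contexts (MP_ef4bac_al, project NAS)
-/

set_option autoImplicit false

namespace Pool.Agent.NAS

open Module Filter Topology

universe u

section functor

variable {K A : Type u} [Field K] [Ring A] [Algebra K A] {𝒜 : ℕ → Submodule K A}

/-- The map on cochains. -/
def MC.cmap (P : MC 𝒜) {M N : GM 𝒜} (f : M.X →ₗ[A] N.X) (i : ℕ) :
    (Fin (P.n i) → M.X) →ₗ[K] (Fin (P.n i) → N.X) :=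
  LinearMap.compLeft (f.restrictScalars K) (Fin (P.n i))

theorem MC.cmap_apply (P : MC 𝒜) {M N : GM 𝒜} (f : M.X →ₗ[A] N.X) (i : ℕ)
    (x : Fin (P.n i) → M.X) (t : Fin (P.n i)) : P.cmap f i x t = f (x t) := rfl

theorem MC.cmap_cod (P : MC 𝒜) {M N : GM 𝒜} (f : M.X →ₗ[A] N.X) (i : ℕ)
    (x : Fin (P.n i) → M.X) : P.cmap f (i + 1) (P.cod M i x) = P.cod N i (P.cmap f i x) := by
  funext s
  rw [MC.cmap_apply, MC.cod_apply, MC.cod_apply, map_sum]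
  exact Finset.sum_congr rfl fun t _ => map_smul _ _ _

theorem MC.cmap_Cc (P : MC 𝒜) {M N : GM 𝒜} (f : M.X →ₗ[A] N.X) (hf : f ∈ Hm M N 0) (i : ℕ)
    (a : ℤ) : ∀ x ∈ P.Cc M i a, P.cmap f i x ∈ P.Cc N i a := by
  intro x hx t ht
  have h1 := Hm_dg hf (hx t ht)
  rwa [add_zero] at h1

theorem MC.cmap_Zc (P : MC 𝒜) {M N : GM 𝒜} (f : M.X →ₗ[A] N.X) (hf : f ∈ Hm M N 0) (i : ℕ)
    (a : ℤ) : ∀ x ∈ P.Zc M i a, P.cmap f i x ∈ P.Zc N i a := by
  rintro x ⟨h1, h2⟩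
  refine ⟨P.cmap_Cc f hf i a x h1, ?_⟩
  have h3 : P.cod M i x = 0 := h2
  show P.cod N i (P.cmap f i x) = 0
  rw [← MC.cmap_cod, h3, map_zero]

theorem MC.cmap_Bc (P : MC 𝒜) {M N : GM 𝒜} (f : M.X →ₗ[A] N.X) (hf : f ∈ Hm M N 0) (i : ℕ)
    (a : ℤ) : ∀ x ∈ P.Bc M i a, P.cmap f i x ∈ P.Bc N i a := by
  cases i with
  | zero =>
    intro x hx
    have h3 : x = 0 := (Submodule.mem_bot K).1 hx
    rw [h3, map_zero]
    exact zero_mem _
  | succ i =>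
    rintro _ ⟨x, hx, rfl⟩
    exact ⟨P.cmap f i x, P.cmap_Cc f hf i a x hx, (P.cmap_cod f i x).symm⟩

/-- The map on the cohomology of `Hom(P, -)`. -/
def MC.SHmap (P : MC 𝒜) {M N : GM 𝒜} (f : M.X →ₗ[A] N.X) (hf : f ∈ Hm M N 0) (i : ℕ) (a : ℤ) :
    P.SH M i a →ₗ[K] P.SH N i a :=
  Submodule.mapQ _ _ ((P.cmap f i).restrict (P.cmap_Zc f hf i a))
    (fun x hx => P.cmap_Bc f hf i a x.1 hx)

/-- Modules killed by `Q`. -/
def Kil (Q : Ideal A) (M : GM 𝒜) : Prop := ∀ q ∈ Q, ∀ x : M.X, q • x = 0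

/-- The alternating sum of the degrees of the generators. -/
noncomputable def MC.chi (P : MC 𝒜) (d : ℕ) (t : ℝ) : ℝ :=
  ∑ i ∈ Finset.range (d + 1), (-1) ^ i * ∑ s, t ^ (P.w i s)

end functor

section chase

variable {K A : Type u} [Field K] [Ring A] [Algebra K A] {𝒜 : ℕ → Submodule K A}
  [GradedAlgebra 𝒜]

theorem MC.bd_mem (P : MC 𝒜) (i : ℕ) : P.bd i ∈ Hm (Fre 𝒜 (P.w (i + 1))) (Fre 𝒜 (P.w i)) 0 := by
  refine mem_Hm_of_dg fun n x hx => ?_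
  rw [GM.mem_dg]
  funext t
  rw [GM.pi_pr, add_zero]
  show prA 𝒜 (n - P.w i t) (∑ s, x s * P.D (i + 1) i s t) = ∑ s, x s * P.D (i + 1) i s t
  rw [map_sum]
  refine Finset.sum_congr rfl fun s _ => prA_of_mem ?_
  have h1 : prA 𝒜 (n - P.w (i + 1) s) (x s) = x s := congrFun (GM.pr_dg hx) s
  have h2 := hA_mul (h1 ▸ prA_mem (n - P.w (i + 1) s) (x s)) (P.deg (i + 1) i s t)
  have h3 : n - P.w (i + 1) s + (P.w (i + 1) s - P.w i t) = n - P.w i t := by ring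
  rwa [h3] at h2

/-- The map on `H^j(Hom(P, -))` induced by the differential of `G`. -/
noncomputable def MC.gmap (P G : MC 𝒜) (i j : ℕ) (a : ℤ) :
    P.SH (Fre 𝒜 (G.w (i + 1))) j a →ₗ[K] P.SH (Fre 𝒜 (G.w i)) j a :=
  P.SHmap (M := Fre 𝒜 (G.w (i + 1))) (N := Fre 𝒜 (G.w i)) (G.bd i) (G.bd_mem i) j a

/-- The map onto the boundaries. -/
noncomputable def aMap (P : MC 𝒜) (Q : Ideal A) (h : HI 𝒜 Q) (h2 : TS Q) (i : ℕ) :
    (PB P Q h (i + 1)).X →ₗ[A] (GB P Q h h2 i).X := (bdQ P Q h h2 i).rangeRestrict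

theorem aMap_mem (P : MC 𝒜) (Q : Ideal A) (h : HI 𝒜 Q) (h2 : TS Q) (i : ℕ) :
    aMap P Q h h2 i ∈ Hm (PB P Q h (i + 1)) (GB P Q h h2 i) 0 := by
  intro n x
  exact Subtype.ext (bdQ_mem P Q h h2 i n x)

/-- The numbers `k(i - 1, j)`. -/
noncomputable def kk (P : MC 𝒜) (Q : Ideal A) (h : HI 𝒜 Q) (h2 : TS Q) : ℕ → ℕ → ℤ → ℕ
  | 0, _, _ => 0
  | i + 1, j, a => finrank K (LinearMap.ker (Emap (aMap P Q h h2 i) (aMap_mem P Q h h2 i) j a))

variable (𝒜) in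
/-- The trivial module `K = A/A₊`. -/
@[reducible] noncomputable def TrivM : GM 𝒜 :=
  (AsA 𝒜).quo (HomogeneousIdeal.irrelevant 𝒜).toIdeal (by
    intro n x hx
    rcases le_or_gt 0 n with h | h
    · lift n to ℕ using h
      have h1 := (HomogeneousIdeal.irrelevant 𝒜).isHomogeneous n hx
      have h2 : (AsA 𝒜).pr (n : ℤ) x = (DirectSum.decompose 𝒜 x n : A) := prA_nat 𝒜 n x
      rw [h2]
      exact h1
    · have h2 : (AsA 𝒜).pr n x = 0 := prA_neg 𝒜 h x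
      rw [h2]
      exact zero_mem _)

end chase

section transpose

variable {K A : Type u} [Field K] [Ring A] [Algebra K A] {𝒜 : ℕ → Submodule K A}

theorem mem_hA_opG {n : ℤ} {x : Aᵐᵒᵖ} : x ∈ hA (opG 𝒜) n ↔ x.unop ∈ hA 𝒜 n := by
  rcases le_or_gt 0 n with h | h
  · lift n to ℕ using h
    rw [hA_nat, hA_nat, mem_opG]
  · rw [hA_neg h, hA_neg h, Submodule.mem_bot, Submodule.mem_bot]
    exact ⟨fun h => by rw [h, MulOpposite.unop_zero], fun h => by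
      rw [← MulOpposite.op_unop x, h, MulOpposite.op_zero]⟩

/-- The reflection of the indices. -/
def nu (d i : ℕ) : ℕ := if i ≤ d then d - i else d + 1

theorem nu_zero (d i : ℕ) (h : d < i) : nu d i = d + 1 := if_neg (by omega)

theorem nu_le (d i : ℕ) (h : i ≤ d) : nu d i = d - i := if_pos h

theorem MC.DD' (P : MC 𝒜) {i j k : ℕ} (hj : j = i + 1) (hk : k = j + 1) (s : Fin (P.n k))
    (t : Fin (P.n i)) : ∑ r, P.D k j s r * P.D j i r t = 0 := by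
  subst hj
  subst hk
  exact P.DD i s t

theorem nu_ne {d i j : ℕ} (hij : i ≠ j + 1) (hi : i ≤ d) (hj : j ≤ d) : nu d j ≠ nu d i + 1 := by
  rw [nu_le d i hi, nu_le d j hj]
  omega

/-- The complex `Hom(P, A)` of right modules, numbered by `d - i`. -/
def MC.tr (P : MC 𝒜) (d : ℕ) (hP : ∀ i, d < i → P.n i = 0) : MC (opG 𝒜) where
  n i := P.n (nu d i)
  w i t := - P.w (nu d i) t
  D i j s t := MulOpposite.op (P.D (nu d j) (nu d i) t s)
  deg i j s t := by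
    rw [mem_hA_opG, MulOpposite.unop_op]
    have h1 : -P.w (nu d i) s - -P.w (nu d j) t = P.w (nu d j) t - P.w (nu d i) s := by ring
    rw [h1]
    exact P.deg _ _ _ _
  Dne i j hij s t := by
    by_cases hi : i ≤ d
    · by_cases hj : j ≤ d
      · rw [P.Dne _ _ (nu_ne hij hi hj), MulOpposite.op_zero]
      · have h1 : P.n (nu d j) = 0 := hP _ (by rw [nu_zero d j (by omega)]; omega)
        exact (Fin.cast h1 t).elim0
    · have h1 : P.n (nu d i) = 0 := hP _ (by rw [nu_zero d i (by omega)]; omega)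
      exact (Fin.cast h1 s).elim0
  DD i s t := by
    by_cases hi : i + 2 ≤ d
    · have h1 := P.DD' (i := nu d (i + 2)) (j := nu d (i + 1)) (k := nu d i)
        (by rw [nu_le d _ hi, nu_le d (i + 1) (by omega)]; omega)
        (by rw [nu_le d i (by omega), nu_le d (i + 1) (by omega)]; omega) t s
      have h2 := congrArg MulOpposite.op h1
      rw [MulOpposite.op_zero] at h2
      rw [← h2, Finset.op_sum]
      rfl
    · have h1 : P.n (nu d (i + 2)) = 0 := hP _ (by rw [nu_zero d _ (by omega)]; omega)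
      exact (Fin.cast h1 s).elim0

/-- The same in the other direction. -/
def MC.rt (P : MC (opG 𝒜)) (d : ℕ) (hP : ∀ i, d < i → P.n i = 0) : MC 𝒜 where
  n i := P.n (nu d i)
  w i t := - P.w (nu d i) t
  D i j s t := (P.D (nu d j) (nu d i) t s).unop
  deg i j s t := by
    rw [← mem_hA_opG]
    have h1 : -P.w (nu d i) s - -P.w (nu d j) t = P.w (nu d j) t - P.w (nu d i) s := by ring
    rw [h1]
    exact P.deg _ _ _ _
  Dne i j hij s t := by
    by_cases hi : i ≤ d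
    · by_cases hj : j ≤ d
      · rw [P.Dne _ _ (nu_ne hij hi hj), MulOpposite.unop_zero]
      · have h1 : P.n (nu d j) = 0 := hP _ (by rw [nu_zero d j (by omega)]; omega)
        exact (Fin.cast h1 t).elim0
    · have h1 : P.n (nu d i) = 0 := hP _ (by rw [nu_zero d i (by omega)]; omega)
      exact (Fin.cast h1 s).elim0
  DD i s t := by
    by_cases hi : i + 2 ≤ d
    · have h1 := P.DD' (i := nu d (i + 2)) (j := nu d (i + 1)) (k := nu d i)
        (by rw [nu_le d _ hi, nu_le d (i + 1) (by omega)]; omega)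
        (by rw [nu_le d i (by omega), nu_le d (i + 1) (by omega)]; omega) t s
      have h2 := congrArg MulOpposite.unop h1
      rw [MulOpposite.unop_zero] at h2
      rw [← h2, Finset.unop_sum]
      rfl
    · have h1 : P.n (nu d (i + 2)) = 0 := hP _ (by rw [nu_zero d _ (by omega)]; omega)
      exact (Fin.cast h1 s).elim0

end transpose

section hyp

variable {K A : Type u} [Field K] [Ring A] [Algebra K A] (𝒜 : ℕ → Submodule K A)
  [GradedAlgebra 𝒜]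

/-- The hypotheses, in the form in which they come from the definition of Artin-Schelter
regularity. -/
structure Hyp0 (d : ℕ) : Prop where
  fin : ∀ n, Module.Finite K (𝒜 n)
  conn : ∀ a ∈ 𝒜 0, ∃ c : K, a = algebraMap K A c
  nt : (1 : A) ≠ 0
  grow : ∃ C m : ℕ, ∀ s, finrank K (𝒜 s) ≤ C * (s + 1) ^ m
  nl : IsNoetherianRing A
  nr : IsNoetherianRing Aᵐᵒᵖ
  gd : ∀ M : ModuleCat.{u} A, CategoryTheory.HasProjectiveDimensionLT M (d + 1)
  gor : ∃ P : MC 𝒜, Nonempty (Res P (TrivM 𝒜) d) ∧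
    (∀ i, i ≠ d → ∀ a, Subsingleton (P.SH (AsA 𝒜) i a)) ∧
    ∃ a0, ∀ a, P.sh (AsA 𝒜) d a = if a = a0 then 1 else 0

/-- The hypotheses in the form in which they are used. -/
structure Hyp (d : ℕ) : Prop where
  fin : ∀ n, Module.Finite K (𝒜 n)
  conn : ∀ a ∈ 𝒜 0, ∃ c : K, a = algebraMap K A c
  nt : (1 : A) ≠ 0
  grow : ∃ C m : ℕ, ∀ s, finrank K (𝒜 s) ≤ C * (s + 1) ^ m
  nl : IsNoetherianRing A
  nr : IsNoetherianRing Aᵐᵒᵖ
  gd : ∀ M : ModuleCat.{u} A, CategoryTheory.HasProjectiveDimensionLT M (d + 1)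
  res : ∀ M : GM 𝒜, Module.Finite A M.X → ∃ P : MC 𝒜, Nonempty (Res P M d)
  gor0 : ∀ H : GM 𝒜, Module.Finite K H.X → ∀ j < d, ∀ a, Subsingleton (E j H a)
  gorf : ∀ H : GM 𝒜, Module.Finite K H.X → ∀ j, FS (eE j H)
  gork : 0 < d → ∃ (P : MC 𝒜) (T : GM 𝒜), Nonempty (Res P T d) ∧ Module.Finite K T.X ∧
    ∃ (w0 : ℤ) (π : Fin (P.n d) → K), π ≠ 0 ∧ (∀ s, π s ≠ 0 → P.w d s = w0) ∧
      ∀ j t, j + 1 = d → ∑ s, π s • prA 𝒜 0 (P.D d j s t) = 0
  resR : ∀ N : GM (opG 𝒜), Module.Finite K N.X → ∃ P : MC (opG 𝒜), Nonempty (Res P N d)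
  gorR : ∀ N : GM (opG 𝒜), Module.Finite K N.X → ∀ j, FS (eE j N)

variable {𝒜}

/-- The situation after step 1 of the proof. -/
structure Ctx (d : ℕ) (φ : ℝ → ℝ) (Q : Ideal A) (h : HI 𝒜 Q) (h2 : TS Q) : Prop where
  hyp : Hyp 𝒜 d
  pos : ∀ᶠ t in 𝓝[<] (1 : ℝ), 0 < φ t
  ord : Tendsto (fun t => φ t / HH (AsA 𝒜).hil t) (𝓝[<] (1 : ℝ)) (𝓝 0)
  one : (1 : A) ∉ Q
  prime : ∀ m n a b, a ∈ 𝒜 m → b ∈ 𝒜 n → (∀ x, a * x * b ∈ Q) → a ∈ Q ∨ b ∈ Q
  bdd : Bdd φ (CQ Q h).hil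
  big : ∀ (N : Submodule A (CQ Q h).X) (hN : (CQ Q h).Hom N), N ≠ ⊥ →
    ¬ Sml φ ((CQ Q h).sub N hN).hil
  emb : ∃ (k : ℕ) (w : Fin k → ℤ) (f : (CQ Q h).X →ₗ[A] (GM.pi w (VV Q h h2 0)).X),
    f ∈ Hm (CQ Q h) (GM.pi w (VV Q h h2 0)) 0 ∧ Function.Injective f

end hyp

end Pool.Agent.NAS
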