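import Pool.Agent.Lib_helper19.NAS.B.Hy
import Pool.Agent.Lib_helper19.NAS.B.Br
import Pool.Agent.Lib_helper19.NAS.B.Or
import Pool.Agent.Lib_helper19.NAS.B.Tq
import Pool.Agent.Lib_helper19.NAS.B.S0
import Pool.Agent.Lib_helper19.NAS.B.S7
import Pool.Agent.Lib_helper19.NAS.B.S8

/-!
# Noetherian Artin-Schelter regular algebras are domains (MP_ef4bac_al, project NAS)
-/

set_option autoImplicit false

namespace Pool.Agent.NAS

open Module Filter Topology CategoryTheory Abelian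

universe u

theorem main {K A : Type u} [Field K] [Ring A] [Algebra K A] (𝒜 : ℕ → Submodule K A)
    [GradedAlgebra 𝒜] [Nontrivial A] [IsNoetherianRing A] [IsNoetherianRing Aᵐᵒᵖ]
    (fin : ∀ n, Module.Finite K (𝒜 n)) (conn : ∀ a ∈ 𝒜 0, ∃ c : K, a = algebraMap K A c)
    (grow : ∃ C m : ℕ, ∀ s, finrank K (𝒜 s) ≤ C * (s + 1) ^ m) (d : ℕ)
    (gd : ∀ M : ModuleCat.{u} A, HasProjectiveDimensionLT M (d + 1))
    (g0 : ∀ i, i ≠ d → Subsingleton (Ext.{u}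
      (ModuleCat.of A (A ⧸ (HomogeneousIdeal.irrelevant 𝒜).toIdeal)) (ModuleCat.of A A) i))
    (g1 : finrank K (Ext.{u}
      (ModuleCat.of A (A ⧸ (HomogeneousIdeal.irrelevant 𝒜).toIdeal)) (ModuleCat.of A A) d) = 1) :
    IsDomain A := by
  have H0 : Hyp0 𝒜 d := ⟨fin, conn, one_ne_zero, grow, inferInstance, inferInstance, gd,
    BR fin conn inferInstance d gd g0 g1⟩
  have H : Hyp 𝒜 d := HY H0
  by_cases hp : ∀ (N : Ideal A) (hN : HI 𝒜 N), N ≠ ⊥ →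
    ¬ Sml (HH (AsA 𝒜).hil) ((AsA 𝒜).sub N hN).hil
  · exact S0 H hp
  · exfalso
    push Not at hp
    obtain ⟨N0, hN0, hne, hs⟩ := hp
    obtain ⟨φ, pos, ord, big, N, hN, hne, hb⟩ := OR H N0 hN0 hne hs
    obtain ⟨Q, h, h2, C⟩ := TQ H φ pos ord big N hN hne hb
    exact S8 C (S7 C)

end Pool.Agent.NAS
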